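import Mathlib
import Pool.Agent.Lib.lead.SemiThue
import Pool.Agent.Lib.lead.PrimFun

set_option autoImplicit false

namespace Pool.Agent.Results.MP_86fe4b_lc.Undecidable

/-- Terms built from variables with the two binary symbols `→` and `;`. -/
inductive Term
  | var (n : ℕ)
  | imp (s t : Term)
  | comp (s t : Term)

/-- Goedel numbering of terms. -/
def Term.code : Term → ℕ
  | .var n => Nat.pair 0 n
  | .imp s t => Nat.pair 1 (Nat.pair s.code t.code)
  | .comp s t => Nat.pair 2 (Nat.pair s.code t.code)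

/-- Value of a term in the algebra of subsets of `T`. -/
def Term.eval {X : Type} (T : Set (X × X)) (ρ : ℕ → Set (X × X)) : Term → Set (X × X)
  | .var n => ρ n
  | .imp s t => (T \ s.eval T ρ) ∪ t.eval T ρ
  | .comp s t => {p | ∃ y, (p.1, y) ∈ s.eval T ρ ∧ (y, p.2) ∈ t.eval T ρ}

/-- The equation `s ≈ t` holds in every algebra of all subsets of a transitive relation. -/
def Valid (s t : Term) : Prop :=
  ∀ (X : Type) (T : Set (X × X)), (∀ x y z, (x, y) ∈ T → (y, z) ∈ T → (x, z) ∈ T) →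
    ∀ ρ : ℕ → Set (X × X), (∀ n, ρ n ⊆ T) → s.eval T ρ = t.eval T ρ

open LeadThue LeadPrim

section
variable {X : Type} {T : Set (X × X)} (hT : ∀ x y z, (x, y) ∈ T → (y, z) ∈ T → (x, z) ∈ T)
  {ρ : ℕ → Set (X × X)} (hρ : ∀ n, ρ n ⊆ T)

include hT hρ in
lemma eval_sub (t : Term) : t.eval T ρ ⊆ T := by
  induction t with
  | var n => exact hρ n
  | imp s t _ ih => exact Set.union_subset Set.diff_subset ih
  | comp s t ih ih' => exact fun p ⟨y, h1, h2⟩ => hT _ _ _ (ih h1) (ih' h2)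

def un (s t : Term) : Term := .imp (.imp s t) t

include hT hρ in
lemma eval_un (s t : Term) : (un s t).eval T ρ = s.eval T ρ ∪ t.eval T ρ := by
  ext p
  have := @eval_sub X T hT ρ hρ s p
  simp only [un, Term.eval, Set.mem_union, Set.mem_diff]
  tauto

def top : Term := .imp (.var 0) (.var 0)

include hρ in
lemma eval_top : top.eval T ρ = T := Set.diff_union_of_subset (hρ 0)

variable {Γ : Type} (cd : Γ → ℕ)

def wt : List Γ → Term
  | [] => .var 0
  | a :: w => w.foldl (fun t b => .comp t (.var (cd b + 1))) (.var (cd a + 1))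

def W (ρ : ℕ → Set (X × X)) : List Γ → X → X → Prop
  | [], x, y => x = y
  | a :: w, x, y => ∃ m, (x, m) ∈ ρ (cd a + 1) ∧ W ρ w m y

lemma W_append (u v : List Γ) : ∀ x y, W cd ρ (u ++ v) x y ↔ ∃ m, W cd ρ u x m ∧ W cd ρ v m y := by
  induction u with
  | nil => simp [W]
  | cons a u ih =>
    intro x y
    simp only [List.cons_append, W, ih]
    tauto

lemma eval_wt {w : List Γ} (hw : w ≠ []) (x y : X) : (x, y) ∈ (wt cd w).eval T ρ ↔ W cd ρ w x y := by
  obtain _ | ⟨a, w⟩ := w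
  · exact absurd rfl hw
  have : ∀ (w : List Γ) (t : Term) (y : X), (x, y) ∈ (w.foldl (fun t b => Term.comp t
      (.var (cd b + 1))) t).eval T ρ ↔ ∃ m, (x, m) ∈ t.eval T ρ ∧ W cd ρ w m y := by
    intro w
    induction w with
    | nil => simp [W]
    | cons b w ih =>
      intro t y
      simp only [List.foldl_cons, ih, Term.eval, W, Set.mem_setOf_eq]
      tauto
  exact this w _ y

include hT hρ in
lemma W_sub : ∀ (w : List Γ) (x y : X), W cd ρ w x y → (w = [] ∧ x = y) ∨ (x, y) ∈ T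
  | [], _, _, h => .inl ⟨rfl, h⟩
  | _ :: w, _, _, ⟨_, h1, h2⟩ => by
    rcases W_sub w _ _ h2 with ⟨_, rfl⟩ | h
    exacts [.inr (hρ _ h1), .inr (hT _ _ _ (hρ _ h1) h)]

def err (L : List (List Γ × List Γ)) : Term :=
  L.foldr (fun r t => un (.imp (.imp (wt cd r.2) (wt cd r.1)) (.var 0)) t) (.var 0)

include hT hρ in
lemma eval_err (L : List (List Γ × List Γ)) (p : X × X) : p ∈ (err cd L).eval T ρ ↔
    p ∈ ρ 0 ∨ ∃ r ∈ L, p ∈ (wt cd r.2).eval T ρ ∧ p ∉ (wt cd r.1).eval T ρ := by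
  induction L with
  | nil => simp [err, Term.eval]
  | cons r L ih =>
    have := @eval_sub X T hT ρ hρ (wt cd r.2) p
    rw [err, List.foldr_cons, eval_un hT hρ, ← err]
    simp only [Set.mem_union, ih, Term.eval, Set.mem_diff, List.mem_cons, exists_eq_or_imp]
    tauto

def idl (e : Term) : Term := un (un e (.comp top e)) (un (.comp e top) (.comp top (.comp e top)))

include hT hρ in
lemma eval_idl (e : Term) (p q : X) : (p, q) ∈ (idl e).eval T ρ ↔
    ∃ x y, (p = x ∨ (p, x) ∈ T) ∧ (x, y) ∈ e.eval T ρ ∧ (y = q ∨ (y, q) ∈ T) := by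
  simp only [idl, eval_un hT hρ, Term.eval, eval_top hρ, Set.mem_union, Set.mem_setOf_eq]
  constructor
  · rintro ((h | ⟨x, h1, h⟩) | ⟨y, h, h2⟩ | ⟨x, h1, y, h, h2⟩)
    exacts [⟨_, _, .inl rfl, h, .inl rfl⟩, ⟨_, _, .inr h1, h, .inl rfl⟩,
      ⟨_, _, .inl rfl, h, .inr h2⟩, ⟨_, _, .inr h1, h, .inr h2⟩]
  · rintro ⟨x, y, rfl | h1, h, rfl | h2⟩
    exacts [.inl (.inl h), .inr (.inl ⟨_, h, h2⟩), .inl (.inr ⟨_, h1, h⟩),
      .inr (.inr ⟨_, h1, _, h, h2⟩)]

end

lemma key {Γ : Type} (cd : Γ → ℕ) (hcd : Function.Injective cd) (R : List Γ → List Γ → Prop)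
    (hR : ∀ u v, R u v → u ≠ [] ∧ v ≠ []) (L : List (List Γ × List Γ))
    (hL : ∀ r, r ∈ L ↔ R r.1 r.2) (w : List Γ) (hw : w ≠ []) (h : Γ) :
    Valid (un (wt cd [h]) (un (wt cd w) (idl (err cd L)))) (un (wt cd w) (idl (err cd L))) ↔
      Relation.ReflTransGen (Rw R) w [h] := by
  constructor
  · intro hv
    let ρ : ℕ → Set (List Γ × List Γ) := fun n =>
      {p | ∃ a, n = cd a + 1 ∧ Relation.ReflTransGen (Rw R) (p.1 ++ [a]) p.2}
    have hT : ∀ x y z : List Γ, (x, y) ∈ (Set.univ : Set (List Γ × List Γ)) → (y, z) ∈ Set.univ →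
      (x, z) ∈ (Set.univ : Set (List Γ × List Γ)) := fun _ _ _ _ _ => trivial
    have hρ : ∀ n, ρ n ⊆ Set.univ := fun _ => Set.subset_univ _
    have hW : ∀ (w : List Γ) (a : Γ) (x y : List Γ), W cd ρ (a :: w) x y ↔
        Relation.ReflTransGen (Rw R) (x ++ a :: w) y := by
      intro w
      have h1 : ∀ a x m, (x, m) ∈ ρ (cd a + 1) ↔ Relation.ReflTransGen (Rw R) (x ++ [a]) m :=
        fun a x m => ⟨fun ⟨b, e, h⟩ => hcd (Nat.succ_injective e) ▸ h, fun h => ⟨a, rfl, h⟩⟩
      induction w with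
      | nil => intro a x y; simp [W, h1]
      | cons b w ih =>
        intro a x y
        rw [W]
        simp only [ih, h1]
        exact ⟨fun ⟨m, h1, h2⟩ => .trans (by simpa using Rw.ctx h1 [] (b :: w)) h2,
          fun h => ⟨_, .refl, by simpa using h⟩⟩
    have hW' : ∀ (w : List Γ), w ≠ [] → ∀ x y, (x, y) ∈ (wt cd w).eval Set.univ ρ ↔
        Relation.ReflTransGen (Rw R) (x ++ w) y := by
      rintro (_ | ⟨a, w⟩) h x y
      · exact absurd rfl h
      · rw [eval_wt cd h, hW]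
    have := (Set.ext_iff.mp (hv _ _ hT ρ hρ) ([], [h])).mp (by
      rw [eval_un hT hρ]; exact .inl ((hW' _ (by simp) _ _).mpr .refl))
    rw [eval_un hT hρ] at this
    rcases this with h1 | h1
    · exact (hW' _ hw _ _).mp h1
    · obtain ⟨x, y, _, h2, _⟩ := (eval_idl hT hρ _ _ _).mp h1
      rcases (eval_err hT hρ cd _ _).mp h2 with ⟨a, e, _⟩ | ⟨r, hr, h3, h4⟩
      · cases e
      · have hr' := (hL r).mp hr
        exact absurd ((hW' _ (hR _ _ hr').1 _ _).mpr (.head ⟨x, _, _, [], hr', by simp, by simp⟩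
          ((hW' _ (hR _ _ hr').2 _ _).mp h3))) h4
  · intro hr X T hT ρ hρ
    rw [eval_un hT hρ]
    refine Set.union_eq_self_of_subset_left fun ⟨p, q⟩ hp => ?_
    rw [eval_un hT hρ]
    by_cases hI : (p, q) ∈ (idl (err cd L)).eval T ρ
    · exact .inr hI
    refine .inl ((eval_wt cd hw _ _).mpr ?_)
    rw [eval_wt cd (by simp)] at hp
    clear hw
    induction hr using Relation.ReflTransGen.head_induction_on with
    | refl => exact hp
    | head s _ ih =>
      obtain ⟨s, u, v, t, r, rfl, rfl⟩ := s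
      obtain ⟨y, h1, h2⟩ := (W_append cd _ _ _ _).mp ih
      obtain ⟨x, h0, h1⟩ := (W_append cd _ _ _ _).mp h1
      refine (W_append cd _ _ _ _).mpr ⟨y, (W_append cd _ _ _ _).mpr ⟨x, h0, ?_⟩, h2⟩
      by_contra hn
      exact hI ((eval_idl hT hρ _ _ _).mpr ⟨x, y, (W_sub hT hρ cd _ _ _ h0).imp And.right id,
        (eval_err hT hρ cd _ _).mpr (.inr ⟨(u, v), (hL _).mpr r, (eval_wt cd (hR _ _ r).2 _ _).mpr h1,
          fun h => hn ((eval_wt cd (hR _ _ r).1 _ _).mp h)⟩),
        (W_sub hT hρ cd _ _ _ h2).imp And.right id⟩)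

theorem result : ¬ ∃ P : ℕ × ℕ → Prop, ComputablePred P ∧
    ∀ s t : Term, P (s.code, t.code) ↔ Valid s t := by
  rintro ⟨P, hP, h⟩
  obtain ⟨Γ, fΓ, R, p, s, a, z, Halts, hf, hR, hp, h0, h1, h2⟩ := exists_thue
  obtain ⟨cd, hcd⟩ := exists_injective_nat Γ
  obtain _ | ⟨b, p⟩ := p
  · exact hp rfl
  let L := hf.toFinset.toList
  let I := (idl (err cd L)).code
  let f : ℕ → ℕ := fun n => (p.map cd ++ List.replicate n (cd a) ++ s.map cd).foldl
    (fun t c => Nat.pair 2 (Nat.pair t (Nat.pair 0 (c + 1)))) (Nat.pair 0 (cd b + 1))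
  have hf' : ∀ n, f n = (wt cd (b :: p ++ List.replicate n a ++ s)).code := by
    intro n
    have : ∀ (w : List Γ) (t : Term), (w.map cd).foldl
        (fun t c => Nat.pair 2 (Nat.pair t (Nat.pair 0 (c + 1)))) t.code =
        (w.foldl (fun t b => Term.comp t (.var (cd b + 1))) t).code := by
      intro w
      induction w with
      | nil => intro t; rfl
      | cons c w ih => intro t; exact ih (.comp t (.var (cd c + 1)))
    simpa [f, wt, Term.code] using this (p ++ List.replicate n a ++ s) (.var (cd b + 1))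
  let g : ℕ → ℕ := fun n => Nat.pair 1 (Nat.pair (Nat.pair 1 (Nat.pair (f n) I)) I)
  have pg : PR g := by unfold g f; fun_prop
  have p2 : PR fun n => (Nat.pair 1 (Nat.pair (Nat.pair 1 (Nat.pair (wt cd [z]).code (g n))) (g n)),
      g n) := by fun_prop
  apply h0
  obtain ⟨k, hk, hk'⟩ := ComputablePred.computable_iff.mp hP
  refine ComputablePred.computable_iff.mpr ⟨_, hk.comp p2.prim.to_comp, ?_⟩
  funext n
  rw [← congrFun hk' _]
  have := (h _ _).trans (key cd hcd R hR L (by simp [L]) (b :: p ++ List.replicate n a ++ s)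
    (by simp) z)
  simp only [un, Term.code, ← hf'] at this
  have e : ∀ u v, Relation.ReflTransGen (Rw R) u v → Relation.EqvGen (Rw R) u v := by
    intro u v t
    induction t with
    | refl => exact .refl _
    | tail _ r ih => exact .trans _ _ _ ih (.rel _ _ r)
  exact propext ⟨fun x => this.mpr (h1 n x), fun x => h2 n (e _ _ (this.mp x))⟩

end Pool.Agent.Results.MP_86fe4b_lc.Undecidable
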